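import Mathlib
import Pool.Agent.Lib.helper22.CfgG

open Classical

namespace Pool.Agent.Results.MP_098c03_co.Four

/-- The real plane. -/
abbrev Pt : Type := EuclideanSpace ℝ (Fin 2)

/-- Affine subspaces of the plane. -/
abbrev Sub : Type := AffineSubspace ℝ Pt

/-- `l` is a straight line. -/
def IsLine (l : Sub) : Prop := Module.finrank ℝ l.direction = 1

/-- A geometric 4-configuration. -/
def IsConf (P : Finset Pt) (L : Finset Sub) : Prop :=
  P.Nonempty ∧ (∀ l ∈ L, IsLine l) ∧ (∀ p ∈ P, (L.filter (fun l => p ∈ l)).card = 4) ∧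
    ∀ l ∈ L, (P.filter (fun p => p ∈ l)).card = 4

/-- The vertices of the Levi graph. -/
abbrev Vx (P : Finset Pt) (L : Finset Sub) : Type := {p // p ∈ P} ⊕ {l // l ∈ L}

/-- The Levi graph. -/
def levi (P : Finset Pt) (L : Finset Sub) : SimpleGraph (Vx P L) :=
  SimpleGraph.fromRel fun a b => ∃ p l, a = Sum.inl p ∧ b = Sum.inr l ∧ (p : Pt) ∈ (l : Sub)

/-- `k`-connectivity. -/
def KConn {V : Type} [Fintype V] (k : ℕ) (G : SimpleGraph V) : Prop :=
  k < Fintype.card V ∧ ∀ S : Finset V, S.card < k → (G.induce ((↑S : Set V)ᶜ)).Connected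

/-- A geometric 4-configuration whose Levi graph is 4-connected and not Hamiltonian. -/
theorem result : ∃ (P : Finset Pt) (L : Finset Sub),
    IsConf P L ∧ KConn 4 (levi P L) ∧ ¬ (levi P L).IsHamiltonian := by
  obtain ⟨P, L, h1, h2, h3, h4, fA, fB, h⟩ := Pool.Agent.Lib.helper22.CfgG.main
  exact ⟨P, L, ⟨h1, h2, h3, h4⟩, ⟨Pool.Agent.Lib.helper22.CfgG.card_gt h,
    Pool.Agent.Lib.helper22.CfgF.conn h⟩, Pool.Agent.Lib.helper22.CfgG.nonham h⟩

end Pool.Agent.Results.MP_098c03_co.Four
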